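import Pool.Agent.Lib.MP_aa9b81_an.Cb.Lm

/-!
# Spaces of separated subsets of locally compact groups

`G` is a second countable locally compact group, `V` an open neighbourhood of `1`, `Cl_V(G)` the
compact space of the `V`-separated subsets of `G`, `Q` a compact convex `G`-space, `W = Cone Q` the open
cone on `Q`. `Y` is a locally compact Hausdorff `G`-space with a continuous equivariant map
`D : Y → Cl_V(G)`, `Y₀` a closed invariant subset, and `H` a proper equivariant map from the space of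
the pairs `(y, A)`, `A ⊆ D y`, to `Y` with `H(y, D y) = y`, `H(y, ∅) ∈ Y₀`, and `H(y, ∅) = y` for
`y ∈ Y₀`. Then `K₁(C₀((Y \ Y₀) × W × (0,1)^j) ⋊_r G) = 0`, and the restriction to `Y₀` induces
bijections of the groups `K₁(C₀(Y × W × (0,1)^j) ⋊_r G)` and `K₁(C₀(Y₀ × W × (0,1)^j) ⋊_r G)`.
-/

namespace Pool.Agent.Results.MP_aa9b81_an.ContinuousConfigurations

open Pool.Agent.Lib.MP_aa9b81_an.LC

theorem result (G E : Type) [Group G] [TopologicalSpace G] [IsTopologicalGroup G]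
    [LocallyCompactSpace G] [SecondCountableTopology G] [T2Space G] [MeasurableSpace G]
    [BorelSpace G] (V : Set G) (hV : IsOpen V) (h1 : (1 : G) ∈ V) [AddCommGroup E] [Module ℝ E]
    [TopologicalSpace E] [T2Space E] [ContinuousAdd E] [ContinuousSMul ℝ E]
    [DistribMulAction G E] [SMulCommClass G ℝ E] [ContinuousConstSMul G E]
    (Q : ConvexSpace G E) (hQ : ContinuousOn (fun p : G × E => p.1 • p.2) (Set.univ ×ˢ Q.carrier))
    (Y : Type) [TopologicalSpace Y] [T2Space Y] [LocallyCompactSpace Y] [MulAction G Y]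
    [ContinuousSMul G Y] (Y₀ : SubMulAction G Y) (hY₀ : IsClosed (Y₀ : Set Y))
    (D : Y → ClV V) (H : Pairs D → Y) (hH : Thinning Y₀ D H) :
    (∀ j, K1Zero G (Wsp Q (Y₀ᶜ : SubMulAction G Y) j)) ∧
    (∀ j, K1Bij G (Wsp.map Q (Subtype.val : Y₀ → Y) j)) :=
  ⟨Pool.Agent.Lib.MP_aa9b81_an.Cb.lc_k1Zero hV h1 Q hQ Y₀ hY₀ hH,
    Pool.Agent.Lib.MP_aa9b81_an.Cb.lc_k1Bij hV h1 Q hQ Y₀ hY₀ hH⟩

end Pool.Agent.Results.MP_aa9b81_an.ContinuousConfigurations
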