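import Pool.Agent.Lib.MP_aa9b81_an.AS.Main

/-!
# Almost all subshifts of finite type, and all spaces of maximal sets, are neutral coefficients

`Γ` is a countable discrete group. A map `M → B` of `Γ`-spaces is neutral (`Neutral`) if, for all
compact convex sets `Q` on which `Γ` acts amenably and the open cone `W` on `Q`, it induces bijections
of the groups `K₁(C₀(B × W × (0,1)^j) ⋊_r Γ)` and `K₁(C₀(M × W × (0,1)^j) ⋊_r Γ)`, `j > 0`, and if
`M × Q → M` induces isomorphisms of the `K`-groups of the crossed products if and only if `B × Q → B`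
does.

Let every one of the `n ^ |V|` patterns `V → {0, …, n - 1}` be allowed with probability `α`,
independently of the others. The probability `badProb Γ V α n` that the subshift of finite type `S` over
`Γ` given by the allowed patterns has no point fixed by `Γ` or is not neutral (that is, that
`B × S → B` is not neutral for some locally compact Hausdorff `Γ`-space `B`) is at most
`n ^ (|V| (|V| - 1)) (1 - α ^ |V|) ^ (n - |V| (|V| - 1)) + (1 - α) ^ n`, and it tends to `0` as `n → ∞`
if `V`, `α` are fixed, and also if they depend on `n` and `α ^ |V| n / (|V|² log n) → ∞`. So almost all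
subshifts of finite type are neutral, also those of density `α` tending to `0`.

More generally let `C` be a `Γ`-set with finite stabilizers. For every point `b` of `B` a family of
finite nonempty subsets of `C` is given, the sets which are forbidden at `b`; this family is
equivariant, locally constant in `b` and locally finite. `M` is the space of the pairs `(b, T)` where
`T ⊆ C` is a maximal set which contains no set forbidden at `b`. Then `M → B` is neutral. If `M' ⊆ M`
is another space of this kind, then the groups of `M \ M'` vanish.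
-/

open Filter Topology

namespace Pool.Agent.Results.MP_aa9b81_an.MaximalSets

open Pool.Agent.Lib.MP_aa9b81_an.Cut Pool.Agent.Lib.MP_aa9b81_an.AS

theorem result (Γ : Type) [Group Γ] [Countable Γ] :
    (∀ V : Finset Γ, V.Nonempty → ∀ α : ℝ, 0 ≤ α → α ≤ 1 → ∀ n > 0,
      badProb Γ V α n ≤ n ^ (V.card * (V.card - 1)) *
        (1 - α ^ V.card) ^ (n - V.card * (V.card - 1)) + (1 - α) ^ n) ∧
    (∀ V : ℕ → Finset Γ, (∀ n, (V n).Nonempty) → ∀ α : ℕ → ℝ, (∀ n, 0 ≤ α n ∧ α n ≤ 1) →
      Tendsto (fun n => α n ^ (V n).card * n / ((V n).card ^ 2 * Real.log n)) atTop atTop →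
      Tendsto (fun n => badProb Γ (V n) (α n) n) atTop (𝓝 0)) ∧
    ∀ (B : Type) [TopologicalSpace B] [T2Space B] [LocallyCompactSpace B] [MulAction Γ B]
      [ContinuousConstSMul Γ B] (C : Type) [MulAction Γ C],
      (∀ c : C, Finite (MulAction.stabilizer Γ c)) → ∀ F : Forbidden Γ B C,
        Neutral Γ (fun z : F.maxSets.Pt => (F.maxSets.val z).1) ∧
        ∀ F' : Forbidden Γ B C, F'.maxSets.carrier ⊆ F.maxSets.carrier →
          ∀ (E : Type) [AddCommGroup E] [Module ℝ E] [TopologicalSpace E] [T2Space E]
            [ContinuousAdd E] [ContinuousSMul ℝ E] [DistribMulAction Γ E] [SMulCommClass Γ ℝ E]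
            [ContinuousConstSMul Γ E] [LocallyConvexSpace ℝ E] (Q : ConvexSpace Γ E),
            AmenableAction Γ Q.Pt → ∀ j > 0,
              K1Zero Γ ((F.maxSets.diff F'.maxSets).Pt × Cone Q × Cube j) := by
  refine ⟨fun V hV α h0 h1 n hn => badProb_le hV h0 h1 hn,
    fun V hV α hα h => tendsto_badProb hV (fun n => (hα n).1) (fun n => (hα n).2) h, ?_⟩
  intro B _ _ _ _ _ C _ hC F
  refine ⟨neutral_maxSets hC F, ?_⟩
  intro F' hF E _ _ _ _ _ _ _ _ _ _ Q hQ j hj
  exact zero_diff hC F F' hF E Q hQ hj

end Pool.Agent.Results.MP_aa9b81_an.MaximalSets
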