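import Pool.Agent.Lib.MP_aa9b81_an.TC.Bij
import Pool.Agent.Lib.MP_aa9b81_an.TC.FinF

/-!
# The total cutting theorem, for all spaces at once and for one space

`Γ` is a countable discrete group, `Q` is a compact convex set on which `Γ` acts amenably (an invariant
subset of a locally convex space on which `Γ` acts linearly) and `W = Cone Q` is the open cone on `Q`.

There is one free action of `Γ` on the Cantor set `U` such that, for all these `Q`, the projections
`Y × Q → Y` induce isomorphisms of the `K`-groups of the reduced crossed products for ALL locally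
compact Hausdorff `Γ`-spaces `Y` if and only if `U × Q → U` does (and if and only if they do so for all
subshifts of finite type `Y`).

For every second countable locally compact Hausdorff `Γ`-space `X` there are a totally disconnected
space `Z` on which `Γ` acts freely and a proper equivariant surjection `p : Z → X` which, for all these
`Q`, induces bijections of the groups `K₁(C₀(X × W × (0,1)^j) ⋊_r Γ)` and
`K₁(C₀(Z × W × (0,1)^j) ⋊_r Γ)`, `j > 0`. These groups vanish for all large `j` if and only if the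
projection `X × Q → X` induces isomorphisms of the `K`-groups of the crossed products; so this is
equivalent for `X` and `Z`.
-/

open Filter Topology

namespace Pool.Agent.Results.MP_aa9b81_an.TotalCutting

open Pool.Agent.Lib.MP_aa9b81_an.Cut

theorem result (Γ : Type) [Group Γ] [Countable Γ] :
    (∃ (U : Type) (_ : TopologicalSpace U) (_ : MulAction Γ U),
      ContinuousConstSMul Γ U ∧ CompactSpace U ∧ TopologicalSpace.MetrizableSpace U ∧
      TotallyDisconnectedSpace U ∧ PerfectSpace U ∧ Nonempty U ∧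
      (∀ z : U, MulAction.stabilizer Γ z = ⊥) ∧
      ∀ (E : Type) [AddCommGroup E] [Module ℝ E] [TopologicalSpace E] [T2Space E]
        [ContinuousAdd E] [ContinuousSMul ℝ E] [DistribMulAction Γ E] [SMulCommClass Γ ℝ E]
        [ContinuousConstSMul Γ E] [LocallyConvexSpace ℝ E] (Q : ConvexSpace Γ E),
        AmenableAction Γ Q.Pt →
        List.TFAE [
          ∀ᶠ j in atTop, K1Bij Γ (fun x : U × Q.Pt × Cube j => ((x.1, x.2.2) : U × Cube j)),
          ∀ᶠ j in atTop, ∀ (n : ℕ) (F : Finset Γ) (P : Set (F → Fin n)),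
            K1Bij Γ (fun x : SFT Γ n F P × Q.Pt × Cube j => ((x.1, x.2.2) : SFT Γ n F P × Cube j)),
          ∀ᶠ j in atTop, ∀ (Y : Type) [TopologicalSpace Y] [T2Space Y] [LocallyCompactSpace Y]
            [MulAction Γ Y] [ContinuousConstSMul Γ Y],
            K1Bij Γ (fun x : Y × Q.Pt × Cube j => ((x.1, x.2.2) : Y × Cube j))]) ∧
    ∀ (X : Type) [TopologicalSpace X] [TopologicalSpace.MetrizableSpace X]
      [LocallyCompactSpace X] [SigmaCompactSpace X] [MulAction Γ X] [ContinuousConstSMul Γ X],
      ∃ (Z : Type) (_ : TopologicalSpace Z) (_ : MulAction Γ Z) (p : Z → X),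
        ContinuousConstSMul Γ Z ∧ TopologicalSpace.MetrizableSpace Z ∧ LocallyCompactSpace Z ∧
        SigmaCompactSpace Z ∧ TotallyDisconnectedSpace Z ∧
        (∀ z : Z, MulAction.stabilizer Γ z = ⊥) ∧
        IsProperMap p ∧ (∀ (g : Γ) z, p (g • z) = g • p z) ∧ Function.Surjective p ∧
        (∀ d, DimLE X d → (∀ x : X, MulAction.stabilizer Γ x = ⊥) →
          ∀ x, (p ⁻¹' {x}).encard ≤ 2 ^ d) ∧
        ∀ (E : Type) [AddCommGroup E] [Module ℝ E] [TopologicalSpace E] [T2Space E]
          [ContinuousAdd E] [ContinuousSMul ℝ E] [DistribMulAction Γ E] [SMulCommClass Γ ℝ E]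
          [ContinuousConstSMul Γ E] [LocallyConvexSpace ℝ E] (Q : ConvexSpace Γ E),
          AmenableAction Γ Q.Pt →
          (∀ j > 0,
            K1Bij Γ (fun z : Z × Cone Q × Cube j => ((p z.1, z.2) : X × Cone Q × Cube j))) ∧
          ((∀ᶠ j in atTop, K1Bij Γ (fun x : X × Q.Pt × Cube j => ((x.1, x.2.2) : X × Cube j))) ↔
            ∀ᶠ j in atTop,
              K1Bij Γ (fun x : Z × Q.Pt × Cube j => ((x.1, x.2.2) : Z × Cube j))) := by
  refine ⟨⟨UF Γ, inferInstance, inferInstance, inferInstance, inferInstance, metrizable_UF Γ,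
    inferInstance, inferInstance, inferInstance, stabilizer_UF, ?_⟩, ?_⟩
  · intro E _ _ _ _ _ _ _ _ _ _ Q hQ
    have hcone := cone_locallyCompact Q
    have hA := propA_of_convexSpace Q hQ
    have hT : ∀ (n : ℕ) (F : Finset Γ) (P : Set (F → Fin n)), T2Space (SFT Γ n F P) :=
      fun n F P => (SFT.isClosedEmbedding_val F P).isEmbedding.t2Space
    have hC : ∀ (n : ℕ) (F : Finset Γ) (P : Set (F → Fin n)), CompactSpace (SFT Γ n F P) :=
      fun n F P => (SFT.isClosedEmbedding_val F P).compactSpace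
    tfae_have 3 → 2 := fun h => h.mono fun j hj n F P => hj _
    tfae_have 3 → 1 := fun h => h.mono fun j hj => hj _
    tfae_have 2 → 3 := by
      rw [eventually_atTop, eventually_atTop]
      rintro ⟨J, hJ⟩
      have h0 : ∀ j ≥ J, ∀ (n : ℕ) (F : Finset Γ) (P : Set (F → Fin n)),
          GL1 (cp Γ (SFT Γ n F P × Cone Q × Cube j)) ≤
            E1 (cp Γ (SFT Γ n F P × Cone Q × Cube j)) :=
        fun j hj n F P => k1Zero_iff.1
          (zero_of_k1Bij_prQ Q hA (fun i hi => hJ i hi n F P) j hj)
      refine ⟨J + 1, fun j hj Y _ _ _ _ _ => ?_⟩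
      exact k1Bij_prQ_of_zero Q hA (fun i hi => k1Zero_iff.2 (sft_suffice_total Q hQ i (h0 i hi)
          (h0 (i + 1) (hi.trans (Nat.le_succ i)) 1 ∅ Set.univ))) j hj
    tfae_have 1 → 3 := by
      rw [eventually_atTop, eventually_atTop]
      rintro ⟨J, hJ⟩
      refine ⟨J + 1, fun j hj Y _ _ _ _ _ => ?_⟩
      exact k1Bij_prQ_of_zero Q hA (fun i hi => k1Zero_iff.2 (universal_free Γ E Q hQ J
        (fun i hi => k1Zero_iff.1 (zero_of_k1Bij_prQ Q hA hJ i hi)) hi)) j hj
    tfae_finish
  · intro X _ _ _ _ _ _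
    obtain ⟨Z, tZ, aZ, p, hp, he, hs, h1, h2, h3, h4, h5, h6, h7, h8⟩ := total_cutting_free Γ X
    refine ⟨Z, tZ, aZ, p, h1, h2, h3, h4, h5, h6, hp, he, hs, h7, ?_⟩
    intro E _ _ _ _ _ _ _ _ _ _ Q hQ
    have hcone := cone_locallyCompact Q
    have hA := propA_of_convexSpace Q hQ
    have h9 := h8 E Q hA
    refine ⟨fun j hj => ?_, eventually_k1Bij_prQ_iff Q hA hp he h9⟩
    obtain ⟨i, rfl⟩ : ∃ i, j = i + 1 := ⟨j - 1, by omega⟩
    have hp' : IsProperMap (Prod.map p (id : Cone Q × Cube (i + 1) → Cone Q × Cube (i + 1))) :=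
      hp.prodMap isProperMap_id
    have he' : ∀ (g : Γ) x,
        Prod.map p (id : Cone Q × Cube (i + 1) → Cone Q × Cube (i + 1)) (g • x) =
          g • Prod.map p (id : Cone Q × Cube (i + 1) → Cone Q × Cube (i + 1)) x :=
      fun g x => Prod.ext (he g x.1) rfl
    exact (k1Bij_iff hp' he').2 (h9 i)

end Pool.Agent.Results.MP_aa9b81_an.TotalCutting
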