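import Pool.Agent.Lib.MP_aa9b81_an.Tv.X7

/-!
# Transversals of actions of locally compact groups
-/

open scoped Topology Manifold ContDiff

namespace Pool.Agent.Results.MP_aa9b81_an.TransversalCutting

open Pool.Agent.Lib.MP_aa9b81_an.LC

theorem result (G : Type) [Group G] [TopologicalSpace G] [IsTopologicalGroup G]
    [LocallyCompactSpace G] [SecondCountableTopology G] [T2Space G] [MeasurableSpace G]
    [BorelSpace G] :
    (∀ (X : Type) [TopologicalSpace X] [T2Space X] [LocallyCompactSpace X]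
      [SecondCountableTopology X] [MulAction G X] [ContinuousSMul G X],
      ∃ (Z : Type) (_ : TopologicalSpace Z) (_ : T2Space Z) (_ : LocallyCompactSpace Z)
        (_ : SecondCountableTopology Z) (_ : MulAction G Z) (_ : ContinuousSMul G Z)
        (p : Z → X), IsCut G p ∧
        ∀ (E : Type) [AddCommGroup E] [Module ℝ E] [TopologicalSpace E] [T2Space E]
          [ContinuousAdd E] [ContinuousSMul ℝ E] [DistribMulAction G E] [SMulCommClass G ℝ E]
          [ContinuousConstSMul G E] (Q : ConvexSpace G E),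
          ContinuousOn (fun q : G × E => q.1 • q.2) (Set.univ ×ˢ Q.carrier) → Amenable Q →
          ∀ j, K1Inj G (Wsp.map Q p j) ∧ K1Bij G (Wsp.map Q p (j + 1))) ∧
    (∃ (X₀ : Type) (_ : TopologicalSpace X₀) (_ : T2Space X₀) (_ : LocallyCompactSpace X₀)
      (_ : SecondCountableTopology X₀) (_ : MulAction G X₀) (_ : ContinuousSMul G X₀),
      IsUniversal G X₀ ∧
      ∃ (Z : Type) (_ : TopologicalSpace Z) (_ : T2Space Z) (_ : LocallyCompactSpace Z)
        (_ : SecondCountableTopology Z) (_ : MulAction G Z) (_ : ContinuousSMul G Z)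
        (p : Z → X₀), IsCut G p ∧
        ∀ (E : Type) [AddCommGroup E] [Module ℝ E] [TopologicalSpace E] [T2Space E]
          [ContinuousAdd E] [ContinuousSMul ℝ E] [DistribMulAction G E] [SMulCommClass G ℝ E]
          [ContinuousConstSMul G E] (Q : ConvexSpace G E),
          ContinuousOn (fun q : G × E => q.1 • q.2) (Set.univ ×ˢ Q.carrier) → Amenable Q →
          ∀ j, K1Zero G (Wsp Q Z j) ↔
            ∀ (X : Type) [TopologicalSpace X] [T2Space X] [LocallyCompactSpace X]
              [MulAction G X] [ContinuousSMul G X], K1Zero G (Wsp Q X j)) ∧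
    (∃ (Z₁ : Type) (_ : TopologicalSpace Z₁) (_ : T2Space Z₁) (_ : LocallyCompactSpace Z₁)
      (_ : SecondCountableTopology Z₁) (_ : MulAction G Z₁) (_ : ContinuousSMul G Z₁),
      (∀ z : Z₁, BoxAt G (fun T : Set Z₁ => IsTotallyDisconnected T) z) ∧
      ∀ (E : Type) [AddCommGroup E] [Module ℝ E] [TopologicalSpace E] [T2Space E]
        [ContinuousAdd E] [ContinuousSMul ℝ E] [DistribMulAction G E] [SMulCommClass G ℝ E]
        [ContinuousConstSMul G E] (Q : ConvexSpace G E),
        ContinuousOn (fun q : G × E => q.1 • q.2) (Set.univ ×ˢ Q.carrier) → Amenable Q →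
        (∀ j, K1Zero G (Wsp Q Z₁ j) ↔
          ∀ (X : Type) [TopologicalSpace X] [T2Space X] [LocallyCompactSpace X]
            [SecondCountableTopology X] [MulAction G X] [ContinuousSMul G X],
            (∀ x : X, BoxAt G (fun _ : Set X => True) x) → K1Zero G (Wsp Q X j)) ∧
        ∀ (F : Type) [NormedAddCommGroup F] [NormedSpace ℝ F] [FiniteDimensional ℝ F]
          [ChartedSpace F G] (k : WithTop ℕ∞) [LieGroup 𝓘(ℝ, F) k G] [ConnectedSpace G] (n : ℕ)
          (ρ : G →* Matrix.SpecialLinearGroup (Fin n) ℝ), 1 ≤ k → 0 < n →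
          Topology.IsClosedEmbedding ρ → AlgebraicLie ρ →
          ∀ (m : ℕ) (S : Set (Set (Matrix (Fin n) (Fin n) ℝ))),
            (∀ h ∈ S, ∀ g : G, Ad ρ g h ∈ S) →
            ((∀ (X : Type) [TopologicalSpace X] [T2Space X] [LocallyCompactSpace X]
              [SecondCountableTopology X] [MulAction G X] [ContinuousSMul G X],
              (∀ x : X, isoAlg ρ x ∈ S) → ∀ j, m ≤ j → K1Zero G (Wsp Q X j)) ↔
            ({0} ∈ S → ∀ j, m ≤ j → K1Zero G (Wsp Q Z₁ j)) ∧
            ∀ h ∈ S, h ≠ {0} →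
              ∀ (Y : Type) [TopologicalSpace Y] [T2Space Y] [LocallyCompactSpace Y]
                [SecondCountableTopology Y] [MulAction G Y] [ContinuousSMul G Y],
                HasType ρ h Y → ∀ j, m ≤ j → K1Zero G (Wsp Q Y j))) ∧
    ∀ (F : Type) [NormedAddCommGroup F] [NormedSpace ℝ F] [FiniteDimensional ℝ F]
      [ChartedSpace F G] (n : WithTop ℕ∞) [LieGroup 𝓘(ℝ, F) n G], 1 ≤ n →
      ∀ (X : Type) [TopologicalSpace X] [T2Space X] [LocallyCompactSpace X]
        [SecondCountableTopology X] [MulAction G X] [ContinuousSMul G X],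
        (∀ x : X, BoxAt G (fun _ : Set X => True) x ↔ DiscStab G x) ∧
        ∀ (Z : Type) [TopologicalSpace Z] [MulAction G Z] (p : Z → X), IsCut G p →
          ∀ z : Z, DiscStab G z → BoxAt G (fun T : Set Z => IsTotallyDisconnected T) z := by
  refine ⟨?_, Pool.Agent.Lib.MP_aa9b81_an.Tv.transversals_universal G,
    Pool.Agent.Lib.MP_aa9b81_an.Tv.transversals_linear G, ?_⟩
  · intro X _ _ _ _ _ _
    exact Pool.Agent.Lib.MP_aa9b81_an.Tv.transversals_all_gen X
  · intro F _ _ _ _ n _ hn X _ _ _ _ _ _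
    exact ⟨fun x => Pool.Agent.Lib.MP_aa9b81_an.Tv.boxAt_iff_discStab F hn x,
      fun Z _ _ p hp z hz => Pool.Agent.Lib.MP_aa9b81_an.Tv.boxAt_td_of_discStab F hn hp z hz⟩

end Pool.Agent.Results.MP_aa9b81_an.TransversalCutting
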